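import Pool.Agent.Helper98.GX.St2

/-! # Project GX (MP_140278_ag): module CBR (lower bound for the rank of the class group) -/

set_option autoImplicit false

open scoped BigOperators

namespace Pool.Agent.Helper47.GX

open Pool.Agent.Helper98.GX
open Pool.Agent.Helper53.CX (DivVal LinSys IsNefCartier)

section

variable {K : Type} [Field K] [Algebra ℂ K] {V : NormalProj K} {r : ℕ}

/-- The degree map. -/
private noncomputable def dl (B : ClassBasis V r) : (V.primes →₀ ℝ) →ₗ[ℝ] (Fin r → ℝ) :=
  Finsupp.linearCombination ℝ (fun p : V.primes => fun l : Fin r => (B.deg (p : DivVal K) l : ℝ))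

private lemma dl_apply (B : ClassBasis V r) (D : V.primes →₀ ℝ) (a : DivVal K → ℤ)
    (hD : ∀ p : V.primes, D p = (a (p : DivVal K) : ℝ)) (l : Fin r) :
    dl B D l = ((∑ᶠ p ∈ V.primes, (B.deg p l : ℤ) * a p : ℤ) : ℝ) := by
  have h1 : ∑ᶠ p ∈ V.primes, (B.deg p l : ℤ) * a p =
      ∑ p ∈ D.support, (B.deg (p : DivVal K) l : ℤ) * a (p : DivVal K) := by
    rw [← finsum_set_coe_eq_finsum_mem]
    apply finsum_eq_sum_of_support_subset
    intro p hp
    rw [Function.mem_support] at hp
    rw [Finset.mem_coe, Finsupp.mem_support_iff, hD p]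
    intro h0
    apply hp
    have : a (p : DivVal K) = 0 := by exact_mod_cast h0
    rw [this, mul_zero]
  rw [h1]
  unfold dl
  rw [Finsupp.linearCombination_apply, Finsupp.sum, Finset.sum_apply]
  push_cast
  apply Finset.sum_congr rfl
  intro p _
  rw [Pi.smul_apply, smul_eq_mul, hD p, mul_comm]

end

theorem hCBR (hFSP : StFSP) (hCBD : StCBD) : StCBR := by
  intro K _ _ V r B ρ0 hρ
  obtain ⟨c1, c2, c3, c4⟩ := hCBD K V r B
  -- finite supports
  have hfin : ∀ f : K, (Function.support fun p : V.primes => (((p : DivVal K).ord f : ℤ) : ℝ)).Finite := by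
    intro f
    by_cases hf : f = 0
    · subst hf
      have : (Function.support fun p : V.primes => (((p : DivVal K).ord 0 : ℤ) : ℝ)) = ∅ := by
        ext p
        simp [(p : DivVal K).ord_zero]
      rw [this]
      exact Set.finite_empty
    · refine ((hFSP K V f hf).preimage Subtype.val_injective.injOn).subset ?_
      intro p hp
      rw [Function.mem_support] at hp
      exact ⟨p.2, fun h => hp (by rw [h]; simp)⟩
  have hfin2 : ∀ k : Fin r,
      (Function.support fun p : V.primes => (((B.H k).div (p : DivVal K) : ℤ) : ℝ)).Finite := by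
    intro k
    refine ((c2 k).preimage Subtype.val_injective.injOn).subset ?_
    intro p hp
    rw [Function.mem_support] at hp
    exact ⟨p.2, fun h => hp (by rw [h]; simp)⟩
  -- the degree map vanishes on the principal divisors
  have hdv : ∀ f : K, dl B (Finsupp.ofSupportFinite _ (hfin f)) = 0 := by
    intro f
    funext l
    rw [dl_apply B _ (fun p => p.ord f) (fun p => by rw [Finsupp.ofSupportFinite_coe]) l]
    by_cases hf : f = 0
    · subst hf
      have : ∀ p : DivVal K, (B.deg p l : ℤ) * p.ord 0 = 0 := by
        intro p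
        rw [p.ord_zero, mul_zero]
      simp [this]
    · rw [c1 f hf l]
      simp
  have hker : princ V.primes ≤ LinearMap.ker (dl B) := by
    rintro D ⟨g, hg⟩
    rw [LinearMap.mem_ker]
    have hD : D = g.sum fun f c => c • (Finsupp.ofSupportFinite _ (hfin f) : V.primes →₀ ℝ) := by
      ext p
      rw [hg p, rdiv, Finsupp.sum, Finsupp.sum, Finsupp.finsetSum_apply]
      apply Finset.sum_congr rfl
      intro f _
      rw [Finsupp.smul_apply, Finsupp.ofSupportFinite_coe, smul_eq_mul]
    rw [hD, Finsupp.sum, map_sum]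
    apply Finset.sum_eq_zero
    intro f _
    rw [map_smul, hdv f, smul_zero]
  set δ : Cl V.primes →ₗ[ℝ] (Fin r → ℝ) := (princ V.primes).liftQ (dl B) hker with hδ
  have hunit : ∀ k l : Fin r, dl B (Finsupp.ofSupportFinite _ (hfin2 k)) l =
      if k = l then 1 else 0 := by
    intro k l
    rw [dl_apply B _ (fun p => (B.H k).div p) (fun p => by rw [Finsupp.ofSupportFinite_coe]) l]
    split_ifs with h
    · subst h
      rw [c3 k]
      simp
    · rw [c4 k l h]
      simp
  have hsurj : Function.Surjective δ := by
    intro y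
    refine ⟨∑ k, y k • (princ V.primes).mkQ (Finsupp.ofSupportFinite _ (hfin2 k)), ?_⟩
    rw [map_sum]
    funext l
    rw [Finset.sum_apply]
    have : ∀ k : Fin r, (δ (y k • (princ V.primes).mkQ (Finsupp.ofSupportFinite _ (hfin2 k)))) l =
        y k * if k = l then 1 else 0 := by
      intro k
      rw [map_smul, Pi.smul_apply, smul_eq_mul, hδ, Submodule.mkQ_apply, Submodule.liftQ_apply,
        hunit]
    rw [Finset.sum_congr rfl fun k _ => this k]
    simp
  have h1 := LinearMap.rank_le_of_surjective δ hsurj
  rw [rank_fin_fun, hρ] at h1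
  exact_mod_cast h1

end Pool.Agent.Helper47.GX
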